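import Pool.Agent.H149R3.GK.Stmts
import Pool.Agent.H249R2.PM.Round

/-! Task PM of project H149-GK: in a bridgeless cubic multigraph there is a perfect matching which
meets every 3-edge-cut in exactly one edge (from Edmonds' matching polytope theorem). -/

set_option autoImplicit false

namespace Pool.Agent.H32R3.GK

open Finset Pool.Agent.H149R3.GK
open Pool.Agent.H249R2.PM (Fr IsPM Cr cut)

set_option linter.unusedSectionVars false

variable {V E : Type} [Fintype V] [DecidableEq V] [Fintype E] [DecidableEq E]

theorem sum_cross (a b : E → V) (hne : ∀ e, a e ≠ b e) (M : Finset E) (S : Finset V) :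
    ∑ v ∈ S, cross a b M {v}
      = cross a b M S + 2 * (M.filter (fun e => a e ∈ S ∧ b e ∈ S)).card := by
  unfold cross
  simp only [Finset.card_filter]
  rw [Finset.sum_comm, Finset.mul_sum, ← Finset.sum_add_distrib]
  apply Finset.sum_congr rfl
  intro e _
  have h1 : ∀ v ∈ S, (if ¬ (a e ∈ ({v} : Finset V) ↔ b e ∈ ({v} : Finset V)) then 1 else 0)
      = (if a e = v then 1 else 0) + (if b e = v then 1 else 0) := by
    intro v _
    simp only [Finset.mem_singleton]
    by_cases h : a e = v
    · have h' : b e ≠ v := fun h' => hne e (h.trans h'.symm)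
      simp [h, h']
    · by_cases h' : b e = v <;> simp [h, h']
  rw [Finset.sum_congr rfl h1, Finset.sum_add_distrib, Finset.sum_ite_eq, Finset.sum_ite_eq]
  by_cases h : a e ∈ S <;> by_cases h' : b e ∈ S <;> simp [h, h']

theorem cut_const (a b : E → V) (S : Finset V) :
    cut a b (fun _ => (1 / 3 : ℝ)) S = (cross a b univ S : ℝ) / 3 := by
  unfold cut cross
  rw [Finset.sum_const, nsmul_eq_mul]
  have : (univ.filter (Cr a b S)) = univ.filter (fun e => ¬ (a e ∈ S ↔ b e ∈ S)) := by
    ext e
    simp [Cr]
  rw [this]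
  ring

theorem taskPM : TaskPM := by
  intro V E _ _ _ _ a b hne hdeg hbr
  classical
  -- odd cuts
  have hodd : ∀ S : Finset V, Odd S.card → 3 ≤ cross a b univ S := by
    intro S hS
    have h := sum_cross a b hne univ S
    rw [Finset.sum_congr rfl (fun v _ => hdeg v), Finset.sum_const, smul_eq_mul] at h
    have h1 := hbr S
    obtain ⟨k, hk⟩ := hS
    omega
  have hfr : Fr a b (fun _ => (1 / 3 : ℝ)) := by
    refine ⟨fun _ => by norm_num, ?_, ?_⟩
    · intro v
      rw [cut_const, hdeg]
      norm_num
    · intro S hS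
      rw [cut_const]
      have : (3 : ℝ) ≤ (cross a b univ S : ℝ) := by exact_mod_cast hodd S hS
      linarith
  have hev : Even (Fintype.card V) := by
    have h := sum_cross a b hne univ univ
    rw [Finset.sum_congr rfl (fun v _ => hdeg v), Finset.sum_const, smul_eq_mul] at h
    have h0 : cross a b univ (univ : Finset V) = 0 := by
      unfold cross
      simp
    rw [h0, Finset.card_univ] at h
    rw [Nat.even_iff]
    omega
  -- the cost
  set F : Finset (Finset V) := univ.filter (fun S => cross a b univ S = 3) with hF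
  let c : E → ℝ := fun e => ∑ S ∈ F, if Cr a b S e then 1 else 0
  obtain ⟨M, hM, -, hcost⟩ := Pool.Agent.H249R2.PM.round (Fintype.card V) V rfl hev a b
    (fun _ => (1 / 3 : ℝ)) c hfr
  have hdegM : ∀ v : V, cross a b M {v} = 1 := by
    intro v
    have h := hM.deg v
    unfold cross
    rw [← h]
    congr 1
  refine ⟨M, hdegM, ?_⟩
  -- both sums
  have hcr : ∀ (N : Finset E) (S : Finset V),
      ∑ e ∈ N, (if Cr a b S e then (1 : ℝ) else 0) = (cross a b N S : ℝ) := by
    intro N S
    rw [← Finset.sum_filter, Finset.sum_const, nsmul_eq_mul, mul_one]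
    unfold cross
    congr 2
  have hL : ∑ e ∈ M, c e = ∑ S ∈ F, (cross a b M S : ℝ) := by
    simp only [c]
    rw [Finset.sum_comm]
    exact Finset.sum_congr rfl (fun S _ => hcr M S)
  have hR : ∑ e ∈ univ.filter (fun e => a e ≠ b e), c e * (1 / 3 : ℝ) = ∑ S ∈ F, (1 : ℝ) := by
    have h1 : univ.filter (fun e => a e ≠ b e) = (univ : Finset E) := by
      ext e
      simp [hne e]
    rw [h1, ← Finset.sum_mul]
    simp only [c]
    rw [Finset.sum_comm, Finset.sum_mul]
    apply Finset.sum_congr rfl
    intro S hS
    rw [hcr]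
    rw [hF, Finset.mem_filter] at hS
    rw [hS.2]
    norm_num
  rw [hL, hR] at hcost
  -- every term is at least one
  have hge : ∀ S ∈ F, (1 : ℝ) ≤ (cross a b M S : ℝ) := by
    intro S hS
    rw [hF, Finset.mem_filter] at hS
    have h := sum_cross a b hne univ S
    rw [Finset.sum_congr rfl (fun v _ => hdeg v), Finset.sum_const, smul_eq_mul, hS.2] at h
    have h' := sum_cross a b hne M S
    rw [Finset.sum_congr rfl (fun v _ => hdegM v), Finset.sum_const, smul_eq_mul] at h'
    have : 1 ≤ cross a b M S := by omega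
    exact_mod_cast this
  intro S hS
  have hSF : S ∈ F := by
    rw [hF, Finset.mem_filter]
    exact ⟨Finset.mem_univ _, hS⟩
  have heq := (Finset.sum_eq_sum_iff_of_le hge).1 (le_antisymm (Finset.sum_le_sum hge) hcost) S hSF
  exact_mod_cast heq.symm

end Pool.Agent.H32R3.GK
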